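import Mathlib

/-!
# The cubic number and its integer coordinates
-/

noncomputable section

namespace Pool.Agent.Q67.B2

open Filter Topology Set

lemma exists_t : ∃ t : ℝ, 0 < t ∧ t < 1 ∧ (t^4)^3 + (t^4)^2 = 1 := by
  have h : (1:ℝ) ∈ (fun t : ℝ => (t^4)^3 + (t^4)^2) '' Icc 0 1 := by
    apply intermediate_value_Icc zero_le_one (by fun_prop)
    constructor <;> norm_num
  obtain ⟨t, ⟨h0, h1⟩, h⟩ := h
  refine ⟨t, lt_of_le_of_ne h0 ?_, lt_of_le_of_ne h1 ?_, h⟩
  · rintro rfl; norm_num at h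
  · rintro rfl; norm_num at h

/-- `tt ^ 4` is the root in `(0, 1)` of `x ^ 3 + x ^ 2 = 1` -/
def tt : ℝ := exists_t.choose
lemma tt_pos : 0 < tt := exists_t.choose_spec.1
lemma tt_lt : tt < 1 := exists_t.choose_spec.2.1

/-- the root -/
def be : ℝ := tt ^ 4
lemma be_eq : be ^ 3 + be ^ 2 = 1 := exists_t.choose_spec.2.2
lemma be_pos : 0 < be := pow_pos tt_pos 4
lemma be_ge : 3/4 ≤ be := by
  by_contra h
  push Not at h
  have h1 : be^3 < (3/4)^3 := by gcongr; exact be_pos.le
  have h2 : be^2 < (3/4)^2 := by gcongr; exact be_pos.le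
  have := be_eq
  norm_num at h1 h2
  linarith
lemma be_le : be ≤ 4/5 := by
  by_contra h
  push Not at h
  have h1 : (4/5)^3 < be^3 := by gcongr
  have h2 : (4/5)^2 < be^2 := by gcongr
  have := be_eq
  norm_num at h1 h2
  linarith

/-- the coordinates of the powers: `be ^ k = A + B be + C be ^ 2` -/
def abc : ℕ → ℤ × ℤ × ℤ
  | 0 => (1, 0, 0)
  | k+1 => ((abc k).2.2, (abc k).1, (abc k).2.1 - (abc k).2.2)

lemma abc_pow (k : ℕ) : be ^ k = (abc k).1 + (abc k).2.1 * be + (abc k).2.2 * be ^ 2 := by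
  induction k with
  | zero => simp [abc]
  | succ k ih =>
    rw [pow_succ, ih]
    simp only [abc]
    push_cast
    have := be_eq
    linear_combination ((abc k).2.2 : ℝ) * this

lemma rec_bound (x : ℕ → ℝ) (h : ∀ k, x (k+3) = x k - x (k+2)) :
    ∃ K : ℝ, 0 ≤ K ∧ ∀ k, |x k| * (tt^2)^k ≤ K := by
  set y : ℕ → ℝ := fun k => x (k+1) - be * x k with hy
  set g : ℝ := be + be^2 with hg
  have hgb : g * be = 1 := by rw [hg]; linear_combination be_eq
  have hyr : ∀ k, y (k+2) = -(1+be) * y (k+1) - g * y k := by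
    intro k
    simp only [hy]
    rw [show k + 2 + 1 = k + 3 by ring, h k]
    have := be_eq
    have e : k + 1 + 1 = k + 2 := rfl
    rw [e, hg]
    linear_combination (-(x k)) * this
  set Q : ℕ → ℝ := fun k => y (k+1)^2 + (1+be) * y (k+1) * y k + g * y k^2 with hQ
  have hQ1 : ∀ k, Q (k+1) = g * Q k := by
    intro k
    simp only [hQ]
    rw [show k + 1 + 1 = k + 2 by ring, hyr k]
    ring
  have hQ2 : ∀ k, Q k * be^k = Q 0 := by
    intro k
    induction k with
    | zero => simp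
    | succ k ih =>
      rw [hQ1, pow_succ]
      calc g * Q k * (be^k * be) = (g * be) * (Q k * be^k) := by ring
        _ = Q 0 := by rw [hgb, ih, one_mul]
  have hQ3 : ∀ k, y k^2 / 2 ≤ Q k := by
    intro k
    simp only [hQ]
    have h1 := be_ge
    have h2 : (1/2 : ℝ) ≤ g - (1+be)^2/4 := by
      rw [hg]; nlinarith
    have h3 : Q k = (y (k+1) + (1+be)/2 * y k)^2 + (g - (1+be)^2/4) * y k^2 := by
      simp only [hQ]; ring
    have h4 : y (k+1)^2 + (1+be) * y (k+1) * y k + g * y k^2 = Q k := rfl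
    rw [h4, h3]
    have h5 : 1/2 * y k^2 ≤ (g - (1+be)^2/4) * y k^2 := mul_le_mul_of_nonneg_right h2 (sq_nonneg _)
    nlinarith [sq_nonneg (y (k+1) + (1+be)/2 * y k)]
  set Y : ℝ := Real.sqrt (2 * Q 0) with hY
  have hY0 : 0 ≤ Y := Real.sqrt_nonneg _
  have hyY : ∀ k, |y k| * (tt^2)^k ≤ Y := by
    intro k
    rw [hY]
    apply Real.le_sqrt_of_sq_le
    rw [mul_pow, sq_abs]
    have e : ((tt^2)^k)^2 = be^k := by
      rw [be, ← pow_mul, ← pow_mul, ← pow_mul]; congr 1; ring
    rw [e]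
    have h1 := hQ2 k
    have h2 := hQ3 k
    have h3 : y k^2 / 2 * be^k ≤ Q k * be^k := mul_le_mul_of_nonneg_right h2 (pow_nonneg be_pos.le _)
    linarith
  have hb1 : be < 1 := by have := be_le; linarith
  refine ⟨|x 0| + Y / (1 - be), by
    have : 0 < 1 - be := by linarith
    positivity, fun k => ?_⟩
  have hs0 : 0 ≤ tt^2 := by positivity
  have hs1 : tt^2 ≤ 1 := pow_le_one₀ tt_pos.le tt_lt.le
  induction k with
  | zero =>
    have : 0 < 1 - be := by linarith
    simp only [pow_zero, mul_one]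
    have : 0 ≤ Y / (1-be) := by positivity
    linarith
  | succ k ih =>
    set K := |x 0| + Y / (1 - be) with hK
    have h1 : x (k+1) = be * x k + y k := by simp only [hy]; ring
    have h2 : |x (k+1)| ≤ be * |x k| + |y k| := by
      rw [h1]
      refine (abs_add_le _ _).trans ?_
      rw [abs_mul, abs_of_pos be_pos]
    have hp : 0 ≤ (tt^2)^k := by positivity
    have h3 : Y ≤ K * (1 - be) := by
      rw [hK, add_mul, div_mul_cancel₀ _ (by linarith : (1:ℝ) - be ≠ 0)]
      have : 0 ≤ |x 0| * (1 - be) := mul_nonneg (abs_nonneg _) (by linarith)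
      linarith
    have hZ : |x (k+1)| * (tt^2)^k ≤ be * K + Y := by
      calc |x (k+1)| * (tt^2)^k ≤ (be * |x k| + |y k|) * (tt^2)^k := by gcongr
        _ = be * (|x k| * (tt^2)^k) + |y k| * (tt^2)^k := by ring
        _ ≤ be * K + Y := by
          have := mul_le_mul_of_nonneg_left ih be_pos.le
          have := hyY k
          linarith
    have hnn : 0 ≤ |x (k+1)| * (tt^2)^k := by positivity
    calc |x (k+1)| * (tt^2)^(k+1) = |x (k+1)| * (tt^2)^k * tt^2 := by rw [pow_succ]; ring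
      _ ≤ |x (k+1)| * (tt^2)^k * 1 := by gcongr
      _ ≤ K := by linarith

lemma abc_bound : ∃ K : ℝ, 0 ≤ K ∧ ∀ k, |((abc k).2.1 : ℝ)| * (tt^2)^k ≤ K ∧
    |((abc k).2.2 : ℝ)| * (tt^2)^k ≤ K := by
  obtain ⟨K1, h1, hK1⟩ := rec_bound (fun k => ((abc k).2.1 : ℝ)) (by
    intro k; simp only [abc]; push_cast; ring)
  obtain ⟨K2, h2, hK2⟩ := rec_bound (fun k => ((abc k).2.2 : ℝ)) (by
    intro k; simp only [abc]; push_cast; ring)
  refine ⟨K1 + K2, by positivity, fun k => ⟨?_, ?_⟩⟩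
  · have := hK1 k; linarith
  · have := hK2 k; linarith

/-- the frequencies -/
def mk (k : ℕ) : Fin 2 → ℤ := ![(abc (k+8)).2.1, (abc (k+8)).2.2]

/-- the rotation vector -/
def al : Fin 2 → ℝ := ![be, be^2]

lemma mk_al (k : ℕ) : ∑ i, (mk k i : ℝ) * al i = be^(k+8) - (abc (k+8)).1 := by
  rw [Fin.sum_univ_two, abc_pow]
  simp [mk, al]
  ring

lemma mk_bound : ∃ K : ℝ, 0 ≤ K ∧ ∀ k i, |(mk k i : ℝ)| * (tt^2)^k ≤ K := by
  obtain ⟨K, h0, hK⟩ := abc_bound
  refine ⟨K / (tt^2)^8, by have := tt_pos; positivity, fun k i => ?_⟩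
  have hp : 0 < (tt^2)^8 := by have := tt_pos; positivity
  rw [le_div_iff₀ hp, mul_assoc, ← pow_add]
  fin_cases i
  · exact (hK (k+8)).1
  · exact (hK (k+8)).2

lemma irred : Irreducible (Polynomial.X^3 + Polynomial.X^2 - 1 : Polynomial ℚ) := by
  have hm : (Polynomial.X^3 + Polynomial.X^2 - 1 : Polynomial ℚ).natDegree = 3 := by
    compute_degree!
  rw [Polynomial.irreducible_iff_roots_eq_zero_of_degree_le_three (by omega) (by omega)]
  rw [Multiset.eq_zero_iff_forall_notMem]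
  intro q hq
  have h1 := Polynomial.isRoot_of_mem_roots hq
  simp only [Polynomial.IsRoot.def, Polynomial.eval_sub, Polynomial.eval_add, Polynomial.eval_pow,
    Polynomial.eval_X, Polynomial.eval_one] at h1
  have h2 : IsIntegral ℤ q := by
    refine ⟨Polynomial.X^3 + Polynomial.X^2 - 1, ?_, ?_⟩
    · monicity!
    · simp [h1]
  obtain ⟨n, rfl⟩ := IsIntegrallyClosed.isIntegral_iff.mp h2
  have h3 : n^3 + n^2 - 1 = 0 := by
    have : ((n^3 + n^2 - 1 : ℤ) : ℚ) = 0 := by push_cast; simpa using h1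
    exact_mod_cast this
  have h4 : n * (n^2 + n) = 1 := by linarith
  rcases Int.isUnit_iff.mp (IsUnit.of_mul_eq_one _ h4) with rfl | rfl <;> norm_num at h3

lemma indep : LinearIndependent ℚ (Fin.cons (1:ℝ) al : Fin 3 → ℝ) := by
  have hm : (Polynomial.X^3 + Polynomial.X^2 - 1 : Polynomial ℚ).Monic := by monicity!
  have h1 : minpoly ℚ be = Polynomial.X^3 + Polynomial.X^2 - 1 := by
    symm
    apply minpoly.eq_of_irreducible_of_monic irred _ hm
    simp only [map_sub, map_add, map_pow, Polynomial.aeval_X, map_one]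
    linarith [be_eq]
  have h2 : (minpoly ℚ be).natDegree = 3 := by
    rw [h1]; compute_degree!
  have h3 := linearIndependent_pow (K := ℚ) be
  have h4 : LinearIndependent ℚ (fun i : Fin 3 => be ^ (i:ℕ)) := by
    rw [← h2]; exact h3
  convert h4 using 1
  funext i
  fin_cases i <;> simp [al]

lemma indep_int (k : Fin 2 → ℤ) (n : ℤ) (h : ∑ i, (k i : ℝ) * al i = n) : k = 0 := by
  have h1 := indep
  rw [Fintype.linearIndependent_iff] at h1
  have h2 := h1 (Fin.cons (-(n:ℚ)) (fun i => (k i : ℚ))) (by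
    rw [Fin.sum_univ_succ]
    simp only [Fin.cons_zero, Fin.cons_succ]
    have e : ∀ i, ((k i : ℚ) • al i : ℝ) = (k i : ℝ) * al i := by
      intro i; rw [Rat.smul_def]; push_cast; rfl
    simp only [e]
    rw [Rat.smul_def, h]
    push_cast
    ring)
  funext i
  have h3 := h2 i.succ
  simp only [Fin.cons_succ] at h3
  exact_mod_cast h3

end Pool.Agent.Q67.B2
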