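import Mathlib

/-!
# Transitivity of unbounded cocycles over minimal rotations of tori
-/

noncomputable section

namespace Pool.Agent.Q67.B2

open Filter Topology Set

variable {d : ℕ}

/-- the torus -/
abbrev TT (d : ℕ) : Type := Fin d → UnitAddCircle

lemma norm_compact_le {d : ℕ} (x : TT d) : ‖x‖ ≤ 1 := by
  rw [pi_norm_le_iff_of_nonneg zero_le_one]
  intro i
  have := AddCircle.norm_le_half_period (1:ℝ) (x := x i) one_ne_zero
  rw [abs_one] at this
  linarith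

/-- recurrence: multiples of `a` close to zero with large index -/
lemma recurrence (a : TT d) (N : ℕ) {ε : ℝ} (hε : 0 < ε) : ∃ n : ℤ, (N : ℤ) ≤ n ∧ ‖n • a‖ < ε := by
  obtain ⟨s, φ, hφ, hs⟩ := CompactSpace.tendsto_subseq (fun j : ℕ => (((N + 1) * j : ℕ) : ℤ) • a)
  have hc : CauchySeq ((fun j : ℕ => (((N + 1) * j : ℕ) : ℤ) • a) ∘ φ) := hs.cauchySeq
  rw [Metric.cauchySeq_iff] at hc
  obtain ⟨M, hM⟩ := hc ε hε
  have h1 := hM (M+1) (by omega) M le_rfl
  refine ⟨(((N + 1) * φ (M+1) : ℕ) : ℤ) - (((N + 1) * φ M : ℕ) : ℤ), ?_, ?_⟩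
  · have h2 : φ M < φ (M+1) := hφ (Nat.lt_succ_self M)
    have h3 : (N+1) * φ M + (N+1) ≤ (N+1) * φ (M+1) := by
      rw [← Nat.mul_succ]
      exact Nat.mul_le_mul_left _ h2
    have h4 : (((N+1) * φ M : ℕ) : ℤ) + (N+1) ≤ (((N+1) * φ (M+1) : ℕ) : ℤ) := by exact_mod_cast h3
    linarith
  · rw [sub_smul, ← dist_eq_norm]
    exact h1

/-- finitely many translates of a ball cover the torus -/
lemma cover {a : TT d} (hd : ∀ x : TT d, ∀ ε > 0, ∃ n : ℤ, dist (n • a) x < ε) {ε : ℝ} (hε : 0 < ε) :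
    ∃ F : Finset ℤ, ∀ x : TT d, ∃ j ∈ F, ‖x + j • a‖ < ε := by
  have h := isCompact_univ.elim_finite_subcover (X := TT d)
    (fun j : ℤ => {x : TT d | ‖x + j • a‖ < ε})
    (fun j => isOpen_lt (by fun_prop) continuous_const) (by
      intro x _
      obtain ⟨n, hn⟩ := hd x ε hε
      refine mem_iUnion.2 ⟨-n, ?_⟩
      show ‖x + (-n) • a‖ < ε
      rw [neg_smul, ← sub_eq_add_neg, ← dist_eq_norm, dist_comm]
      exact hn)
  obtain ⟨F, hF⟩ := h
  refine ⟨F, fun x => ?_⟩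
  have := hF (mem_univ x)
  rw [mem_iUnion₂] at this
  obtain ⟨j, hj, hx⟩ := this
  exact ⟨j, hj, hx⟩

/-- uniform almost invariance of a continuous function under small rotations -/
lemma unif {f : TT d → ℝ} (hf : Continuous f) {ε : ℝ} (hε : 0 < ε) :
    ∃ δ > 0, ∀ x v : TT d, ‖v‖ < δ → |f (x + v) - f x| < ε := by
  have h := CompactSpace.uniformContinuous_of_continuous hf
  rw [Metric.uniformContinuous_iff] at h
  obtain ⟨δ, hδ, h⟩ := h ε hε
  refine ⟨δ, hδ, fun x v hv => ?_⟩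
  have := h (a := x + v) (b := x) (by rw [dist_eq_norm, add_sub_cancel_left]; exact hv)
  rwa [Real.dist_eq] at this

lemma unif_finset {f : ℤ → TT d → ℝ} (hf : ∀ j, Continuous (f j)) (F : Finset ℤ) {ε : ℝ}
    (hε : 0 < ε) : ∃ δ > 0, ∀ j ∈ F, ∀ x v : TT d, ‖v‖ < δ → |f j (x + v) - f j x| < ε := by
  classical
  induction F using Finset.induction_on with
  | empty => exact ⟨1, one_pos, by simp⟩
  | insert i F hi ih =>
    obtain ⟨δ1, h1, h1'⟩ := ih
    obtain ⟨δ2, h2, h2'⟩ := unif (hf i) hε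
    refine ⟨min δ1 δ2, lt_min h1 h2, ?_⟩
    intro j hj x v hv
    rw [Finset.mem_insert] at hj
    rcases hj with rfl | hj
    · exact h2' x v (hv.trans_le (min_le_right _ _))
    · exact h1' j hj x v (hv.trans_le (min_le_left _ _))

/-- **Approximate transitivity.** -/
theorem approx (a : TT d) (S : ℤ → TT d → ℝ) (hc : ∀ n, Continuous (S n))
    (hco : ∀ m n x, S (m + n) x = S m x + S n (x + m • a))
    (hodd : ∀ n x, ∃ y, S n y = - S n x)
    (hd : ∀ x : TT d, ∀ ε > 0, ∃ n : ℤ, dist (n • a) x < ε)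
    (x₁ : TT d) (hun : Tendsto (fun n : ℤ => |S n x₁|) cofinite atTop)
    (x0 y0 : TT d) (t0 s0 : ℝ) {ε : ℝ} (hε : 0 < ε) :
    ∃ (n : ℤ) (x : TT d), ‖x - x0‖ < ε ∧ ‖x + n • a - y0‖ < ε ∧ |t0 + S n x - s0| < ε := by
  obtain ⟨m, hm⟩ := hd (y0 - x0) (ε/2) (by linarith)
  set c : ℝ := s0 - t0 - S m x0 with hcdef
  obtain ⟨δ0, hδ0, hS⟩ := unif (hc m) (show 0 < ε/4 by linarith)
  set η : ℝ := min (min (ε/4) (δ0/2)) 1 with hη
  have hη0 : 0 < η := by positivity
  have hη1 : η ≤ ε/4 := (min_le_left _ _).trans (min_le_left _ _)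
  have hη2 : η ≤ δ0/2 := (min_le_left _ _).trans (min_le_right _ _)
  obtain ⟨F, hF⟩ := cover hd hη0
  obtain ⟨δ1, hδ1, hSF⟩ := unif_finset hc F (show 0 < ε/4 by linarith)
  -- large values
  have h1 := hun.eventually_ge_atTop |c|
  rw [Filter.eventually_cofinite] at h1
  obtain ⟨N, hN⟩ : ∃ N : ℕ, ∀ n : ℤ, (N:ℤ) ≤ n → |c| ≤ |S n x₁| := by
    obtain ⟨N, hN⟩ := h1.bddAbove
    refine ⟨(N.toNat + 1), fun n hn => ?_⟩
    by_contra hcon
    have := hN (show n ∈ {x : ℤ | ¬ |c| ≤ |S x x₁|} from hcon)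
    have h2 := Int.self_le_toNat N
    push_cast at hn
    omega
  obtain ⟨n, hn, hna⟩ := recurrence a N (show 0 < min η δ1 by positivity)
  have hn1 : ‖n • a‖ < η := hna.trans_le (min_le_left _ _)
  have hn2 : ‖n • a‖ < δ1 := hna.trans_le (min_le_right _ _)
  -- the value c
  obtain ⟨x, hx⟩ : ∃ x, S n x = c := by
    have h2 := hN n hn
    obtain ⟨y, hy⟩ := hodd n x₁
    have h3 : c ∈ Set.uIcc (S n x₁) (S n y) := by
      rw [hy, Set.mem_uIcc]
      rw [abs_le] at h2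
      rcases le_total 0 (S n x₁) with h | h
      · rw [abs_of_nonneg h] at h2; right; exact h2
      · rw [abs_of_nonpos h] at h2; left; exact ⟨by linarith, by linarith⟩
    rcases le_total (S n x₁) (S n y) with h | h
    · rw [Set.uIcc_of_le h] at h3
      have := mem_range_of_exists_le_of_exists_ge (hc n) ⟨x₁, h3.1⟩ ⟨y, h3.2⟩
      exact this
    · rw [Set.uIcc_of_ge h] at h3
      exact mem_range_of_exists_le_of_exists_ge (hc n) ⟨y, h3.1⟩ ⟨x₁, h3.2⟩
  obtain ⟨j, hjF, hj⟩ := hF (x - x0)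
  set x' : TT d := x + j • a with hx'
  have hx'0 : ‖x' - x0‖ < η := by
    rw [hx', show x + j • a - x0 = x - x0 + j • a by abel]; exact hj
  have hSn : |S n x' - c| < ε/4 := by
    have e1 : S (j + n) x = S j x + S n x' := hco j n x
    have e2 : S (n + j) x = S n x + S j (x + n • a) := hco n j x
    rw [add_comm] at e2
    have e3 : S n x' - c = S j (x + n • a) - S j x := by linarith
    rw [e3]
    exact hSF j hjF x _ hn2
  refine ⟨n + m, x', ?_, ?_, ?_⟩
  · linarith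
  · have e : x' + (n + m) • a - y0 = (x' - x0) + n • a + (m • a - (y0 - x0)) := by
      rw [add_smul]; abel
    rw [e]
    rw [dist_eq_norm] at hm
    calc _ ≤ ‖(x' - x0) + n • a‖ + ‖m • a - (y0 - x0)‖ := norm_add_le _ _
      _ ≤ ‖x' - x0‖ + ‖n • a‖ + ‖m • a - (y0 - x0)‖ := by
          gcongr; exact norm_add_le _ _
      _ < ε := by linarith
  · rw [hco n m x']
    have h5 : |S m (x' + n • a) - S m x0| < ε/4 := by
      have := hS x0 ((x' - x0) + n • a) (by
        calc _ ≤ ‖x' - x0‖ + ‖n • a‖ := norm_add_le _ _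
          _ < δ0 := by linarith)
      rwa [show x0 + ((x' - x0) + n • a) = x' + n • a by abel] at this
    have e : t0 + (S n x' + S m (x' + n • a)) - s0 = (S n x' - c) + (S m (x' + n • a) - S m x0) := by
      rw [hcdef]; ring
    rw [e]
    calc _ ≤ |S n x' - c| + |S m (x' + n • a) - S m x0| := abs_add_le _ _
      _ < ε := by linarith

/-- a point with dense orbit -/
theorem dense_orbit (a : TT d) (S : ℤ → TT d → ℝ) (hc : ∀ n, Continuous (S n))
    (hco : ∀ m n x, S (m + n) x = S m x + S n (x + m • a))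
    (hodd : ∀ n x, ∃ y, S n y = - S n x)
    (hd : ∀ x : TT d, ∀ ε > 0, ∃ n : ℤ, dist (n • a) x < ε)
    (x₁ : TT d) (hun : Tendsto (fun n : ℤ => |S n x₁|) cofinite atTop) :
    ∃ p : TT d × ℝ, Dense (Set.range (fun n : ℤ => (p.1 + n • a, p.2 + S n p.1))) := by
  set F : ℤ → TT d × ℝ → TT d × ℝ := fun n p => (p.1 + n • a, p.2 + S n p.1) with hF
  have hFc : ∀ n, Continuous (F n) := fun n => by
    have := hc n
    fun_prop
  obtain ⟨b, hbc, hb0, hb⟩ := TopologicalSpace.exists_countable_basis (TT d × ℝ)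
  have hG : ∀ V ∈ b, IsOpen (⋃ n, F n ⁻¹' V) ∧ Dense (⋃ n, F n ⁻¹' V) := by
    intro V hV
    have hVo : IsOpen V := hb.isOpen hV
    have hVne : V.Nonempty := by
      rw [Set.nonempty_iff_ne_empty]; rintro rfl; exact hb0 hV
    refine ⟨isOpen_iUnion fun n => hVo.preimage (hFc n), ?_⟩
    rw [Metric.dense_iff]
    rintro ⟨x0, t0⟩ r hr
    obtain ⟨⟨y0, s0⟩, hy⟩ := hVne
    rw [Metric.isOpen_iff] at hVo
    obtain ⟨r2, hr2, hV2⟩ := hVo _ hy
    obtain ⟨n, x, h1, h2, h3⟩ := approx a S hc hco hodd hd x₁ hun x0 y0 t0 s0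
      (show 0 < min r r2 by positivity)
    refine ⟨(x, t0), ?_, ?_⟩
    · rw [Metric.mem_ball, Prod.dist_eq]
      simp only [dist_self]
      rw [max_lt_iff, dist_eq_norm]
      exact ⟨h1.trans_le (min_le_left _ _), hr⟩
    · rw [mem_iUnion]
      refine ⟨n, ?_⟩
      apply hV2
      rw [Metric.mem_ball, Prod.dist_eq, max_lt_iff]
      refine ⟨?_, ?_⟩
      · rw [dist_eq_norm]; exact h2.trans_le (min_le_right _ _)
      · rw [Real.dist_eq]; exact h3.trans_le (min_le_right _ _)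
  have hD : Dense (⋂ V ∈ b, ⋃ n, F n ⁻¹' V) :=
    dense_biInter_of_isOpen (fun V hV => (hG V hV).1) hbc (fun V hV => (hG V hV).2)
  obtain ⟨p, hp⟩ := hD.nonempty
  refine ⟨p, ?_⟩
  rw [hb.dense_iff]
  intro V hV hne
  rw [mem_iInter₂] at hp
  have := hp V hV
  rw [mem_iUnion] at this
  obtain ⟨n, hn⟩ := this
  exact ⟨F n p, hn, ⟨n, rfl⟩⟩

end Pool.Agent.Q67.B2
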