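import Pool.Agent.Q67.BC.Four
import Pool.Agent.Q67.B2.Alg
import Pool.Agent.Q67.B2.Tr
import Pool.Agent.W654.Kron

/-!
# The continuously differentiable function and its discrete orbit
-/

noncomputable section

namespace Pool.Agent.Q67.B2

open Filter Topology Set UnitAddTorus Real

/-- the function on the two-dimensional torus -/
def phi (x : TT 2) : ℝ := ∑' k : ℕ, (tt^3)^k * (mFourier (mk k) x).im

lemma t3_pos : 0 < tt^3 := pow_pos tt_pos 3
lemma t3_lt : tt^3 < 1 := pow_lt_one₀ tt_pos.le tt_lt (by norm_num)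

lemma sum_t3 : Summable (fun k : ℕ => (tt^3)^k) := summable_geometric_of_lt_one t3_pos.le t3_lt

lemma im_le (k : ℕ) (x : TT 2) : |(mFourier (mk k) x).im| ≤ 1 :=
  (Complex.abs_im_le_norm _).trans (BC.mF_norm _ _).le

lemma term_le (k : ℕ) (x : TT 2) : ‖(tt^3)^k * (mFourier (mk k) x).im‖ ≤ (tt^3)^k := by
  rw [norm_mul, Real.norm_eq_abs, abs_of_pos (pow_pos t3_pos k)]
  exact mul_le_of_le_one_right (pow_pos t3_pos k).le (im_le k x)

lemma phi_summable (x : TT 2) : Summable (fun k : ℕ => (tt^3)^k * (mFourier (mk k) x).im) :=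
  Summable.of_norm_bounded sum_t3 (fun k => term_le k x)

lemma phi_cont : Continuous phi := by
  apply continuous_tsum (u := fun k => (tt^3)^k) _ sum_t3 (fun k x => term_le k x)
  intro k
  have := (mFourier (mk k)).continuous
  exact continuous_const.mul (Complex.continuous_im.comp this)

lemma phi_neg (x : TT 2) : phi (-x) = - phi x := by
  unfold phi
  rw [← tsum_neg]
  congr 1
  funext k
  have h1 : mFourier (mk k) (-x) = mFourier (-(mk k)) x := by
    have := BC.mF_neg (-(mk k)) x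
    rw [neg_neg] at this
    exact this
  rw [h1]
  have h2 : mFourier (-(mk k)) x = (starRingEnd ℂ) (mFourier (mk k) x) := by
    rw [mFourier_neg]
  rw [h2, Complex.conj_im]
  ring

lemma zz_im (x : Fin 2 → ℝ) (k : Fin 2 → ℤ) : (BC.zz x k).im = sin (2 * π * ∑ i, (k i : ℝ) * x i) := by
  unfold BC.zz BC.th
  rw [show (2 * (π:ℂ) * ((∑ i, (k i : ℝ) * x i : ℝ) : ℂ) * Complex.I) =
    ((2 * π * ∑ i, (k i : ℝ) * x i : ℝ) : ℂ) * Complex.I by push_cast; ring]
  rw [Complex.exp_ofReal_mul_I_im]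

lemma phi_pr (x : Fin 2 → ℝ) :
    phi (BC.pr x) = ∑' k : ℕ, (tt^3)^k * sin (2 * π * ∑ i, (mk k i : ℝ) * x i) := by
  unfold phi
  congr 1
  funext k
  rw [BC.mF_pr, zz_im]

/-- the linear form `2 π m_k · x` -/
def LL (k : ℕ) : (Fin 2 → ℝ) →L[ℝ] ℝ :=
  ∑ i, (2 * π * (mk k i : ℝ)) • ContinuousLinearMap.proj (R := ℝ) (φ := fun _ : Fin 2 => ℝ) i

lemma LL_apply (k : ℕ) (x : Fin 2 → ℝ) : LL k x = 2 * π * ∑ i, (mk k i : ℝ) * x i := by
  unfold LL
  rw [Fin.sum_univ_two, Fin.sum_univ_two]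
  show (2 * π * (mk k 0 : ℝ)) * x 0 + (2 * π * (mk k 1 : ℝ)) * x 1 = _
  ring

lemma LL_norm (k : ℕ) : ‖LL k‖ ≤ 2 * π * ∑ i, |(mk k i : ℝ)| := by
  apply ContinuousLinearMap.opNorm_le_bound _ (by positivity)
  intro x
  have h1 : |∑ i, (mk k i : ℝ) * x i| ≤ (∑ i, |(mk k i : ℝ)|) * ‖x‖ := by
    refine (Finset.abs_sum_le_sum_abs _ _).trans ?_
    rw [Finset.sum_mul]
    refine Finset.sum_le_sum fun i _ => ?_
    rw [abs_mul]
    exact mul_le_mul_of_nonneg_left (norm_le_pi_norm x i) (abs_nonneg _)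
  rw [LL_apply, Real.norm_eq_abs, abs_mul, abs_of_pos (by positivity : (0:ℝ) < 2 * π)]
  calc 2 * π * |∑ i, (mk k i : ℝ) * x i| ≤ 2 * π * ((∑ i, |(mk k i : ℝ)|) * ‖x‖) := by gcongr
    _ = _ := by ring

lemma hasF (k : ℕ) (x : Fin 2 → ℝ) :
    HasFDerivAt (fun x => (tt^3)^k * sin (LL k x)) (((tt^3)^k * cos (LL k x)) • LL k) x := by
  have h1 : HasFDerivAt (fun x => sin (LL k x)) (cos (LL k x) • LL k) x :=
    (LL k).hasFDerivAt.sin
  have h2 := h1.const_mul ((tt^3)^k)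
  rw [smul_smul] at h2
  exact h2

lemma sum_v1 : Summable (fun k : ℕ => (tt^3)^k * (2 * π * ∑ i, |(mk k i : ℝ)|)) := by
  obtain ⟨K, hK0, hK⟩ := mk_bound
  have h1 : Summable (fun k : ℕ => (2 * π * (2 * K)) * tt^k) :=
    (summable_geometric_of_lt_one tt_pos.le tt_lt).mul_left _
  refine Summable.of_nonneg_of_le (fun k => ?_) (fun k => ?_) h1
  · have := t3_pos; positivity
  · rw [Fin.sum_univ_two]
    have e : (tt^3)^k = tt^k * (tt^2)^k := by rw [← mul_pow]; congr 1; ring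
    rw [e]
    have h2 := hK k 0
    have h3 := hK k 1
    have hp : 0 < tt^k := pow_pos tt_pos k
    calc tt^k * (tt^2)^k * (2 * π * (|(mk k 0 : ℝ)| + |(mk k 1 : ℝ)|))
        = (2 * π) * ((|(mk k 0 : ℝ)| * (tt^2)^k + |(mk k 1 : ℝ)| * (tt^2)^k)) * tt^k := by ring
      _ ≤ (2 * π) * (K + K) * tt^k := by gcongr
      _ = _ := by ring

lemma phi_smooth : ContDiff ℝ 1 (fun x : Fin 2 → ℝ => phi (BC.pr x)) := by
  have e : (fun x : Fin 2 → ℝ => phi (BC.pr x)) =
      fun x => ∑' k : ℕ, (fun (k : ℕ) (x : Fin 2 → ℝ) => (tt^3)^k * sin (LL k x)) k x := by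
    funext x
    rw [phi_pr]
    simp only [LL_apply]
  rw [e]
  have key := contDiff_tsum (𝕜 := ℝ) (N := (1 : ℕ∞))
    (f := fun (k : ℕ) (x : Fin 2 → ℝ) => (tt^3)^k * sin (LL k x))
    (v := fun j k => if j = 0 then (tt^3)^k else (tt^3)^k * (2 * π * ∑ i, |(mk k i : ℝ)|))
    (fun k => by
      have : ContDiff ℝ 1 (fun x => sin (LL k x)) := Real.contDiff_sin.comp (LL k).contDiff
      exact contDiff_const.mul this)
    (fun j hj => by
      by_cases h : j = 0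
      · simp only [h, if_true]; exact sum_t3
      · simp only [h, if_false]; exact sum_v1)
    (fun j k x hj => by
      have hj1 : j ≤ 1 := by exact_mod_cast hj
      interval_cases j
      · rw [norm_iteratedFDeriv_zero, if_pos rfl, norm_mul, Real.norm_eq_abs,
          abs_of_pos (pow_pos t3_pos k)]
        exact mul_le_of_le_one_right (pow_pos t3_pos k).le (abs_sin_le_one _)
      · rw [norm_iteratedFDeriv_one, if_neg one_ne_zero, (hasF k x).fderiv, norm_smul, norm_mul,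
          Real.norm_eq_abs, abs_of_pos (pow_pos t3_pos k)]
        have h1 : ‖cos (LL k x)‖ ≤ 1 := abs_cos_le_one _
        have h2 := LL_norm k
        have h3 := (pow_pos t3_pos k).le
        calc (tt^3)^k * ‖cos (LL k x)‖ * ‖LL k‖ ≤ (tt^3)^k * 1 * (2 * π * ∑ i, |(mk k i : ℝ)|) := by
              gcongr
          _ = _ := by ring)
  exact_mod_cast key

/-! ### the orbit of zero -/

/-- Birkhoff sums of `sin (2 π n θ)` -/
def sig (n : ℤ) (θ : ℝ) : ℝ :=
  cos (π * θ) / (2 * sin (π * θ)) * (1 - cos (2 * π * n * θ)) - sin (2 * π * n * θ) / 2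

lemma sig_zero (θ : ℝ) : sig 0 θ = 0 := by simp [sig]

lemma sig_succ (n : ℤ) {θ : ℝ} (h : sin (π * θ) ≠ 0) :
    sig (n+1) θ = sig n θ + sin (2 * π * n * θ) := by
  unfold sig
  have e : 2 * π * ((n + 1 : ℤ) : ℝ) * θ = 2 * π * n * θ + 2 * (π * θ) := by push_cast; ring
  rw [e, cos_add, sin_add, cos_two_mul, sin_two_mul]
  have hs := sin_sq_add_cos_sq (π * θ)
  field_simp
  have h2 : cos (π * θ)^2 = 1 - sin (π * θ)^2 := by linarith
  ring_nf
  rw [show cos (π * θ)^3 = cos (π * θ) * cos (π * θ)^2 by ring, h2]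
  ring

lemma th_pos (k : ℕ) : 0 < be^(k+8) := pow_pos be_pos _

lemma th_le (k : ℕ) : be^(k+8) ≤ 1/4 := by
  have h1 : be^(k+8) ≤ (4/5)^8 := by
    rw [pow_add]
    have h2 : be^k ≤ 1 := pow_le_one₀ be_pos.le (by have := be_le; linarith)
    have h3 : be^8 ≤ (4/5)^8 := pow_le_pow_left₀ be_pos.le be_le 8
    calc be^k * be^8 ≤ 1 * (4/5)^8 := by gcongr
      _ = _ := one_mul _
  norm_num at h1
  linarith

lemma sin_th_pos {θ : ℝ} (h0 : 0 < θ) (h1 : θ ≤ 1/4) : 0 < sin (π * θ) := by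
  apply sin_pos_of_pos_of_lt_pi (by positivity)
  have := pi_pos
  nlinarith

lemma cos_th {θ : ℝ} (h0 : 0 < θ) (h1 : θ ≤ 1/4) : 1/2 ≤ cos (π * θ) := by
  have h : cos (π/3) ≤ cos (π * θ) := by
    apply cos_le_cos_of_nonneg_of_le_pi (by positivity)
    · linarith [pi_pos]
    · nlinarith [pi_pos]
  rw [cos_pi_div_three] at h
  exact h

lemma cot_nonneg {θ : ℝ} (h0 : 0 < θ) (h1 : θ ≤ 1/4) :
    1 / (16 * θ) ≤ cos (π * θ) / (2 * sin (π * θ)) := by
  have hs := sin_th_pos h0 h1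
  have hc := cos_th h0 h1
  rw [div_le_div_iff₀ (by positivity) (by positivity)]
  have h2 : sin (π * θ) ≤ π * θ := sin_le (by positivity)
  have h3 : π ≤ 4 := pi_le_four
  have h4 : π * θ ≤ 4 * θ := by gcongr
  nlinarith

lemma sig_ge {θ : ℝ} (h0 : 0 < θ) (h1 : θ ≤ 1/4) (n : ℤ) : 0 ≤ sig n θ + 1/2 := by
  unfold sig
  have h2 : 0 ≤ cos (π * θ) / (2 * sin (π * θ)) := le_trans (by positivity) (cot_nonneg h0 h1)
  have h3 : 0 ≤ 1 - cos (2 * π * n * θ) := by linarith [cos_le_one (2 * π * n * θ)]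
  have h4 := mul_nonneg h2 h3
  have h5 := sin_le_one (2 * π * n * θ)
  linarith

lemma sig_big {θ : ℝ} (h0 : 0 < θ) (h1 : θ ≤ 1/4) (n : ℤ) (hn : 1/4 ≤ |(n:ℝ)| * θ)
    (hn2 : |(n:ℝ)| * θ ≤ 1/2) : 1 / (16 * θ) ≤ sig n θ + 1/2 := by
  unfold sig
  have h2 := cot_nonneg h0 h1
  have h3 : cos (2 * π * n * θ) ≤ 0 := by
    have e : cos (2 * π * n * θ) = cos (2 * π * (|(n:ℝ)| * θ)) := by
      rcases abs_cases (n:ℝ) with ⟨h, _⟩ | ⟨h, _⟩
      · rw [h]; congr 1; ring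
      · rw [h, ← cos_neg]; congr 1; ring
    rw [e]
    apply cos_nonpos_of_pi_div_two_le_of_le
    · nlinarith [pi_pos]
    · nlinarith [pi_pos]
  have h5 := sin_le_one (2 * π * n * θ)
  have h6 : 1 / (16 * θ) ≤ cos (π * θ) / (2 * sin (π * θ)) * (1 - cos (2 * π * n * θ)) := by
    have h7 : 0 ≤ cos (π * θ) / (2 * sin (π * θ)) := le_trans (by positivity) h2
    nlinarith
  linarith

lemma pr_zsmul (n : ℤ) : n • BC.pr al = BC.pr (fun i => n * al i) := by
  funext i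
  show n • ((al i : ℝ) : UnitAddCircle) = ((n * al i : ℝ) : UnitAddCircle)
  rw [← AddCircle.coe_zsmul, zsmul_eq_mul]

lemma phi_orbit (n : ℤ) :
    HasSum (fun k : ℕ => (tt^3)^k * sin (2 * π * n * be^(k+8))) (phi (n • BC.pr al)) := by
  have h : HasSum (fun k : ℕ => (tt^3)^k * (mFourier (mk k) (n • BC.pr al)).im)
    (phi (n • BC.pr al)) := (phi_summable (n • BC.pr al)).hasSum
  have e : (fun k : ℕ => (tt^3)^k * (mFourier (mk k) (n • BC.pr al)).im) =
      fun k : ℕ => (tt^3)^k * sin (2 * π * n * be^(k+8)) := by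
    funext k
    rw [pr_zsmul, BC.mF_pr, zz_im]
    congr 1
    have h1 : ∑ i, (mk k i : ℝ) * (n * al i) = n * (be^(k+8) - (abc (k+8)).1) := by
      rw [← mk_al, Finset.mul_sum]
      exact Finset.sum_congr rfl fun i _ => by ring
    rw [h1]
    have h2 : 2 * π * (n * (be^(k+8) - (abc (k+8)).1)) =
        2 * π * n * be^(k+8) - ((n * (abc (k+8)).1 : ℤ) : ℝ) * (2 * π) := by push_cast; ring
    rw [h2, sin_sub_int_mul_two_pi]
  rw [e] at h
  exact h

/-- the sums along the orbit of zero -/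
theorem sum_form {S : ℤ → ℝ} (h0 : S 0 = 0) (hS : ∀ n, S (n+1) = S n + phi (n • BC.pr al)) (n : ℤ) :
    HasSum (fun k : ℕ => (tt^3)^k * sig n (be^(k+8))) (S n) := by
  have hsin : ∀ k, sin (π * be^(k+8)) ≠ 0 := fun k => (sin_th_pos (th_pos k) (th_le k)).ne'
  induction n using Int.induction_on with
  | zero => simp only [sig_zero, mul_zero, h0]; exact hasSum_zero
  | succ n ih =>
    rw [hS]
    have h := ih.add (phi_orbit n)
    have e : (fun k : ℕ => (tt^3)^k * sig ((n:ℤ)+1) (be^(k+8))) =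
        fun k : ℕ => (tt^3)^k * sig n (be^(k+8)) + (tt^3)^k * sin (2 * π * (n:ℤ) * be^(k+8)) := by
      funext k
      rw [sig_succ n (hsin k)]; ring
    rw [e]
    exact h
  | pred n ih =>
    have h1 := hS (-(n:ℤ) - 1)
    rw [sub_add_cancel] at h1
    have h2 : S (-(n:ℤ) - 1) = S (-(n:ℤ)) - phi ((-(n:ℤ) - 1) • BC.pr al) := by linarith
    rw [h2]
    have h := ih.sub (phi_orbit (-(n:ℤ) - 1))
    have e : (fun k : ℕ => (tt^3)^k * sig (-(n:ℤ) - 1) (be^(k+8))) =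
        fun k : ℕ => (tt^3)^k * sig (-(n:ℤ)) (be^(k+8)) -
          (tt^3)^k * sin (2 * π * ((-(n:ℤ) - 1 : ℤ) : ℝ) * be^(k+8)) := by
      funext k
      have := sig_succ (-(n:ℤ) - 1) (hsin k)
      rw [sub_add_cancel] at this
      rw [this]; ring
    rw [e]
    exact h

lemma S_lower {S : ℤ → ℝ} (h0 : S 0 = 0) (hS : ∀ n, S (n+1) = S n + phi (n • BC.pr al))
    (n : ℤ) (K : ℕ) (h1 : 1/4 ≤ |(n:ℝ)| * be^(K+8)) (h2 : |(n:ℝ)| * be^(K+8) ≤ 1/2) :
    (tt⁻¹)^K * (1 / (16 * be^8)) - (∑' k : ℕ, (tt^3)^k) / 2 ≤ S n := by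
  have h := (sum_form h0 hS n).add ((sum_t3.hasSum).mul_right (1/2))
  have e : (fun k : ℕ => (tt^3)^k * sig n (be^(k+8)) + (tt^3)^k * (1/2)) =
      fun k : ℕ => (tt^3)^k * (sig n (be^(k+8)) + 1/2) := by funext k; ring
  rw [e] at h
  have h3 := le_hasSum h K (fun j _ => mul_nonneg (pow_pos t3_pos j).le (sig_ge (th_pos j) (th_le j) n))
  have h4 := mul_le_mul_of_nonneg_left (sig_big (th_pos K) (th_le K) n h1 h2) (pow_pos t3_pos K).le
  have e2 : (tt^3)^K * (1 / (16 * be^(K+8))) = (tt⁻¹)^K * (1 / (16 * be^8)) := by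
    rw [pow_add, be]
    have := tt_pos.ne'
    rw [inv_pow]
    field_simp
    rw [← mul_pow]
    congr 1
  rw [e2] at h4
  linarith

theorem discrete {S : ℤ → ℝ} (h0 : S 0 = 0) (hS : ∀ n, S (n+1) = S n + phi (n • BC.pr al)) :
    Tendsto (fun n : ℤ => |S n|) cofinite atTop := by
  set A : ℝ := (∑' k : ℕ, (tt^3)^k) / 2 with hA
  rw [tendsto_atTop]
  intro M
  have ht : Tendsto (fun K : ℕ => (tt⁻¹)^K * (1 / (16 * be^8))) atTop atTop := by
    apply Tendsto.atTop_mul_const (by have := be_pos; positivity)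
    exact tendsto_pow_atTop_atTop_of_one_lt ((one_lt_inv₀ tt_pos).2 tt_lt)
  obtain ⟨K0, hK0⟩ := (ht.eventually_ge_atTop (M + A)).exists_forall_of_atTop
  -- all but finitely many n
  obtain ⟨N, hN⟩ := exists_nat_gt (1 / (2 * be^(K0+8)))
  rw [Filter.eventually_cofinite]
  apply (Set.finite_Icc (-(N:ℤ)) N).subset
  intro n hn
  rw [Set.mem_ofPred_eq] at hn
  by_contra hcon
  apply hn
  have hbig : (N:ℝ) < |(n:ℝ)| := by
    have : (N:ℤ) < |n| := by
      by_contra h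
      push Not at h
      exact hcon (Set.mem_Icc.2 (abs_le.1 h))
    exact_mod_cast this
  have h1 : 1/2 < |(n:ℝ)| * be^(K0+8) := by
    have h2 := hN.trans hbig
    rw [div_lt_iff₀ (by have := be_pos; positivity)] at h2
    linarith
  -- the first scale
  have hb1 : be < 1 := by have := be_le; linarith
  have hex : ∃ K : ℕ, |(n:ℝ)| * be^(K+8) ≤ 1/2 := by
    have h2 : Tendsto (fun K : ℕ => |(n:ℝ)| * be^(K+8)) atTop (𝓝 (|(n:ℝ)| * 0)) :=
      ((tendsto_pow_atTop_nhds_zero_of_lt_one be_pos.le hb1).comp (tendsto_add_atTop_nat 8)).const_mul _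
    rw [mul_zero] at h2
    obtain ⟨K, hK⟩ := (h2.eventually_lt_const (show (0:ℝ) < 1/2 by norm_num)).exists
    exact ⟨K, hK.le⟩
  classical
  set K := Nat.find hex with hK
  have hK1 : |(n:ℝ)| * be^(K+8) ≤ 1/2 := Nat.find_spec hex
  have hKK : K0 < K := by
    by_contra h
    push Not at h
    have h2 : be^(K0+8) ≤ be^(K+8) := pow_le_pow_of_le_one be_pos.le hb1.le (by omega)
    have h3 : |(n:ℝ)| * be^(K0+8) ≤ |(n:ℝ)| * be^(K+8) := by gcongr
    linarith
  have hK2 : ¬ (|(n:ℝ)| * be^((K-1)+8) ≤ 1/2) := Nat.find_min hex (by omega)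
  have hK3 : 1/4 ≤ |(n:ℝ)| * be^(K+8) := by
    push Not at hK2
    have e : be^(K+8) = be^((K-1)+8) * be := by rw [← pow_succ]; congr 1; omega
    rw [e, ← mul_assoc]
    have := be_ge
    nlinarith
  have h5 := S_lower h0 hS n K hK3 hK1
  have h6 := hK0 K hKK.le
  have h7 := le_abs_self (S n)
  linarith

/-- the orbit of zero of the rotation is dense -/
lemma dense_rot (x : TT 2) (ε : ℝ) (hε : ε > 0) : ∃ n : ℤ, dist (n • BC.pr al) x < ε := by
  obtain ⟨n, hn⟩ := Pool.Agent.W654.Kron.kronecker (BC.pr al) x (by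
    intro k hk
    have h1 : ((∑ i, (k i : ℝ) * al i : ℝ) : UnitAddCircle) = 0 := by
      rw [← hk, Fin.sum_univ_two, Fin.sum_univ_two]
      show ((((k 0 : ℝ) * al 0 + (k 1 : ℝ) * al 1 : ℝ)) : UnitAddCircle) =
        k 0 • ((al 0 : ℝ) : UnitAddCircle) + k 1 • ((al 1 : ℝ) : UnitAddCircle)
      rw [← AddCircle.coe_zsmul, ← AddCircle.coe_zsmul, ← AddCircle.coe_add, zsmul_eq_mul, zsmul_eq_mul]
    rw [AddCircle.coe_eq_zero_iff] at h1
    obtain ⟨m, hm⟩ := h1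
    have h2 := indep_int k m (by rw [← hm]; simp)
    rw [h2]
    simp) ε hε
  exact ⟨n, by rw [natCast_zsmul]; exact hn⟩

end Pool.Agent.Q67.B2
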